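import Pool.Agent.W729.LR.Fin

/-!
# Chromatic number and rank of graphs whose neighbourhoods are separated by few linear conditions
-/

set_option autoImplicit false

namespace Pool.Agent.Results.MP_3bd889_lc.SeparatedVertices

open Pool.Agent.W729.LR

/-- `r` is the real rank of the adjacency matrix, `N(u) Δ N(v)` the symmetric difference of the
neighbourhoods, and before refers to an order `pos` of the vertices.
(1) If the vertices are divided into `t` classes each of which is `s`-separated over the reals or
over a prime field, then `|V| ≤ t (r + 1)^s` and `log χ(G) ≤ log t + s log (r + 1)`.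
A set `T` of vertices is `s`-separated (2) over the reals, if for every `u ∈ T` the numbers
`|N(u) Δ N(v)|`, `v ∈ T` before `u`, are nonzero and take at most `s` values; (3) over `ZMod p`, if
they are nonzero modulo `p` and have at most `s` residues; (4) over the reals, if every `u ∈ T` has
a set `X` of at most `s` vertices which meets `N(u) Δ N(v)` for all `v ∈ T` before `u`.
(5) If `G` is twin-free and a group acts by automorphisms such that every stabiliser of a vertex
has at most `s + 1` orbits of vertices, then `|V| ≤ (r + 1)^s` and `log χ(G) ≤ s log (r + 1)`. -/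
theorem result :
    (∀ (V ι : Type) [Fintype V] [DecidableEq V] [Fintype ι] [DecidableEq ι] (G : SimpleGraph V)
      [DecidableRel G.Adj] (cl : V → ι) (pos : V → ℕ) (s : ℕ),
      (∀ u v, cl u = cl v → pos u = pos v → u = v) →
      (∀ i : ι, Separated ℝ G (Finset.univ.filter (fun v => cl v = i)) pos s ∨
        ∃ (p : ℕ) (_ : Fact p.Prime),
          Separated (ZMod p) G (Finset.univ.filter (fun v => cl v = i)) pos s) →
      Fintype.card V ≤ Fintype.card ι * ((G.adjMatrix ℝ).rank + 1) ^ s ∧
      Real.log (G.chromaticNumber.toNat : ℝ) ≤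
        Real.log (Fintype.card ι : ℝ) + s * Real.log (((G.adjMatrix ℝ).rank : ℝ) + 1)) ∧
    (∀ (V : Type) [Fintype V] [DecidableEq V] (G : SimpleGraph V) [DecidableRel G.Adj]
      (T : Finset V) (pos : V → ℕ) (s : ℕ),
      ((∀ u ∈ T, ∃ D : Finset ℕ, D.card ≤ s ∧ 0 ∉ D ∧ ∀ v ∈ T, pos v < pos u →
          (symmDiff (G.neighborFinset u) (G.neighborFinset v)).card ∈ D) →
        Separated ℝ G T pos s) ∧
      (∀ (p : ℕ) [Fact p.Prime],
        (∀ u ∈ T, ∃ D : Finset ℕ, D.card ≤ s ∧ (∀ d ∈ D, ¬ p ∣ d) ∧ ∀ v ∈ T, pos v < pos u →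
          ∃ d ∈ D, (symmDiff (G.neighborFinset u) (G.neighborFinset v)).card ≡ d [MOD p]) →
        Separated (ZMod p) G T pos s) ∧
      ((∀ u ∈ T, ∃ X : Finset V, X.card ≤ s ∧ ∀ v ∈ T, pos v < pos u →
          ∃ x ∈ X, ¬ (G.Adj u x ↔ G.Adj v x)) →
        Separated ℝ G T pos s)) ∧
    (∀ (V Γ : Type) [Fintype V] [DecidableEq V] (G : SimpleGraph V) [DecidableRel G.Adj]
      [Group Γ] [MulAction Γ V] (s : ℕ),
      (∀ (γ : Γ) (u v : V), G.Adj (γ • u) (γ • v) ↔ G.Adj u v) →
      (∀ u v : V, u ≠ v → ¬ G.Adj u v → G.neighborSet u ≠ G.neighborSet v) →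
      (∀ u : V, Nat.card (MulAction.orbitRel.Quotient (MulAction.stabilizer Γ u) V) ≤ s + 1) →
      Fintype.card V ≤ ((G.adjMatrix ℝ).rank + 1) ^ s ∧
      Real.log (G.chromaticNumber.toNat : ℝ) ≤
        s * Real.log (((G.adjMatrix ℝ).rank : ℝ) + 1)) := by
  refine ⟨?_, ?_, ?_⟩
  · intro V ι _ _ _ _ G _ cl pos s hpos h
    have h1 := main G cl pos hpos s h
    exact ⟨h1, log_chi G _ _ s h1⟩
  · intro V _ _ G _ T pos s
    exact ⟨few_sizes G T pos s, fun p _ => few_residues G T pos s p, teaching G T pos s⟩
  · intro V Γ _ _ G _ _ _ s haut htf hs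
    have htf' : ∀ u v : V, u ≠ v → ¬ G.Adj u v → G.neighborFinset u ≠ G.neighborFinset v := by
      intro u v huv hadj h
      apply htf u v huv hadj
      have := congrArg (fun X : Finset V => (X : Set V)) h
      simpa using this
    have h1 := main G (fun _ => ()) (fun v => (Fintype.equivFin V v : ℕ))
      (fun u v _ h => (Fintype.equivFin V).injective (Fin.ext h)) s
      (fun i => Or.inl (by
        have := orbits G haut htf' (fun v => (Fintype.equivFin V v : ℕ)) s hs
        simpa using this))
    have h2 := log_chi G _ _ s h1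
    rw [Fintype.card_unit, one_mul] at h1
    refine ⟨h1, ?_⟩
    simpa using h2

end Pool.Agent.Results.MP_3bd889_lc.SeparatedVertices
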