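import Pool.Agent.W926.LR.Final
import Pool.Agent.H287R3.LR.Graph

/-!
# Chromatic number, VC dimension and rank
-/

set_option autoImplicit false

namespace Pool.Agent.Results.MP_3bd889_lc.VCDimension

/-- **Chromatic number, VC dimension and rank over any field.**
If no set of more than `d` vertices of the finite graph `G` is shattered by the neighbourhoods of
`G`, then `log₂ χ(G) ≤ 307 (d + 1) (log₂ r + 1)²`, `r` the rank of the adjacency matrix over an
arbitrary field `K`. -/
theorem result (K : Type) [Field K] (V : Type) [Fintype V] (G : SimpleGraph V)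
    [DecidableRel G.Adj] (d : ℕ)
    (hd : ∀ A : Finset V, (∀ B ⊆ A, ∃ v : V, ∀ u ∈ A, (G.Adj v u ↔ u ∈ B)) → A.card ≤ d) :
    Real.logb 2 (G.chromaticNumber.toNat : ℝ) ≤
      307 * ((d : ℝ) + 1) * (Real.logb 2 ((G.adjMatrix K).rank : ℝ) + 1) ^ 2 := by
  classical
  obtain ⟨c, h1, h2⟩ := Pool.Agent.W926.LR.main K (fun u v : V => decide (G.Adj u v)) d (by
    intro A hA
    apply hd A
    intro B hB
    obtain ⟨v, hv⟩ := hA (fun u => decide (u ∈ B))
    exact ⟨v, fun u hu => by simpa using hv u hu⟩)
  have e : Pool.Agent.W926.LR.cm K (fun u v : V => decide (G.Adj u v)) = G.adjMatrix K := by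
    ext u v
    show (if decide (G.Adj u v) = true then (1 : K) else 0) = _
    rw [SimpleGraph.adjMatrix_apply]
    simp
  rw [e] at h2
  exact (Pool.Agent.H287R3.LR.logb_chromatic_le G h1).trans h2

end Pool.Agent.Results.MP_3bd889_lc.VCDimension
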